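import Pool.Agent.Helper87.VM.Lib2
import Pool.Agent.Helper87.VM.Stmts

/-!
Curves through the general point (module THR of the existence theorem on isotrivial VMRT).
-/

set_option autoImplicit false

namespace Pool.Agent.Helper87.VM

open MvPolynomial Pool.Agent.Helper48.VMRT

/-- Existence of points not at infinity. -/
theorem thr_exists (D : VD) (hD : D.Good) (L : Submodule ℂ (Fin (D.N + 1) → ℂ))
    (hL : D.IsBad L) : ∃ v ∈ D.X, v ≠ 0 ∧ v ∉ L := by
  obtain ⟨b, hb, hb0⟩ := hD.Bpm.exists_ne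
  have hy : D.gr (ov 1 0) ∈ D.Y := VD.gr_mem D _
  have hj : ∃ j, D.gr (ov 1 0) (none, j) ≠ 0 := by
    by_contra hcon
    have h0 : ∀ j, eval (ov 1 0) (D.F j) = 0 := by
      intro j
      by_contra hne
      refine hcon ⟨j, ?_⟩
      have h1 : D.gr (ov 1 0) (none, j) = 1 * eval (ov 1 0) (D.F j) := rfl
      rw [h1, one_mul]
      exact hne
    have h2 := ((hD.fd.zero (ov 1 0)).1 h0).1
    exact one_ne_zero h2
  have hy0 : D.gr (ov 1 0) ≠ 0 := by
    obtain ⟨j, hj⟩ := hj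
    intro h0
    rw [h0] at hj
    exact hj rfl
  refine ⟨ev2 D.E b (D.gr (ov 1 0)), ⟨b, hb, _, hy, rfl⟩, hD.xd.ne b hb hb0 _ hy hy0, ?_⟩
  intro hmem
  obtain ⟨j, hj⟩ := hj
  exact hj ((hL b hb hb0 _ hy hy0).1 hmem j)

/-- A vector not at infinity and a vector at infinity are linearly independent. -/
theorem thr_ind {w : ℕ} (u z : Fin w → ℂ) (hz : z ≠ 0) :
    LinearIndependent ℂ ![(ov 1 u : Option (Fin w) → ℂ), ov 0 z] := by
  rw [LinearIndependent.pair_iff]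
  intro s t h
  have h1 : s = 0 := by
    have h2 := congrFun h none
    have h3 : s * 1 + t * 0 = (0 : ℂ) := h2
    simpa using h3
  refine ⟨h1, ?_⟩
  obtain ⟨i, hi⟩ := Function.ne_iff.1 hz
  have h2 := congrFun h (some i)
  have h3 : s * u i + t * z i = (0 : ℂ) := h2
  rw [h1, zero_mul, zero_add] at h3
  exact (mul_eq_zero.1 h3).resolve_right hi

/-- Curves through the point over `(1, u)`. -/
theorem thr_through (hPAR : ST_PAR) (D : VD) (hD : D.Good) (b : D.κB → ℂ) (hb : b ∈ D.B)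
    (hb0 : b ≠ 0) (u : Fin D.w → ℂ) :
    ∃ c ∈ D.H, ∃ s t : ℂ, (s, t) ≠ (0, 0) ∧ pt c s t = ev2 D.E b (D.gr (ov 1 u)) := by
  obtain ⟨i⟩ := hD.ine
  obtain ⟨z, hz, hz0⟩ := hD.Zne i
  have hzZ : z ∈ D.Z := Set.mem_iUnion.2 ⟨i, hz⟩
  obtain ⟨Ψ, hΨ⟩ := hPAR D hD
  have key := hΨ b u ![1, 0, 0, 1] z hzZ
  have e1 : (![1, 0, 0, 1] : Fin 4 → ℂ) 0 = 1 := rfl
  have e2 : (![1, 0, 0, 1] : Fin 4 → ℂ) 1 = 0 := rfl
  have e3 : (![1, 0, 0, 1] : Fin 4 → ℂ) 2 = 0 := rfl
  have e4 : (![1, 0, 0, 1] : Fin 4 → ℂ) 3 = 1 := rfl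
  rw [e1, e2, e3, e4] at key
  simp only [one_smul, zero_smul, add_zero, zero_add] at key
  refine ⟨ev Ψ (Sum.elim b (Sum.elim u (Sum.elim ![1, 0, 0, 1] z))),
    ⟨b, ov 1 u, ov 0 z, ?_, ?_⟩, 1, 0, ?_, ?_⟩
  · refine ⟨hb, hb0, thr_ind u z hz0, Or.inl one_ne_zero, ?_⟩
    have h1 : (fun i => (ov 0 z : Option (Fin D.w) → ℂ) none * (ov 1 u) (some i) -
        (ov 1 u : Option (Fin D.w) → ℂ) none * (ov 0 z) (some i)) = (-1 : ℂ) • z := by
      funext j
      simp only [ov_none, ov_some, Pi.smul_apply, smul_eq_mul]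
      ring
    rw [h1]
    exact Set.mem_iUnion.2 ⟨i, hD.Zcone i (-1) z hz⟩
  · intro s t
    rw [ov_none, ov_none]
    exact key s t
  · intro h
    exact one_ne_zero (congrArg Prod.fst h)
  · have h1 := key 1 0
    simpa using h1

/-- Constant maps are not curves. -/
theorem thr_not_zero {N : ℕ} (X : Set (Fin (N + 1) → ℂ)) (c : Coef N 0) : ¬ IsCurve X c := by
  intro h
  have hconst : ∀ s t s' t' : ℂ, pt c s t = pt c s' t' := by
    intro s t s' t'
    funext i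
    simp only [pt]
    refine Finset.sum_congr rfl fun j _ => ?_
    have hj : (j : ℕ) = 0 := by have := j.2; omega
    rw [hj]
    simp
  have huniv : {z : ℂ | ∃ s t : ℂ, (s, t) ≠ (0, 0) ∧ t ≠ z * s ∧
      ∃ a : ℂ, pt c s t = a • pt c 1 z} = Set.univ := by
    refine Set.eq_univ_iff_forall.2 fun z => ?_
    refine ⟨0, 1, ?_, ?_, 1, ?_⟩
    · intro h0
      exact one_ne_zero (congrArg Prod.snd h0)
    · rw [mul_zero]
      exact one_ne_zero
    · rw [one_smul]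
      exact hconst 0 1 1 z
  have hfin := h.birational
  rw [huniv] at hfin
  exact Set.infinite_univ hfin

theorem st_THR (hNF : ST_NF) (hPAR : ST_PAR) (hCURV : ST_CURV) : ST_THR := by
  intro D hD L hL
  refine ⟨thr_exists D hD L hL, ?_⟩
  intro v hv hv0 hvL
  refine ⟨?_, ?_⟩
  · obtain ⟨b, hb, hb0, u, hvu⟩ := hNF D hD L hL v hv hv0 hvL
    rw [hvu]
    exact thr_through hPAR D hD b hb hb0 u
  · intro e he c hc s t _ hst
    have he1 : 1 ≤ e := by
      rcases Nat.eq_zero_or_pos e with h0 | h0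
      · subst h0
        exact absurd hc (thr_not_zero D.X c)
      · exact h0
    have h1 := (hCURV D hD L hL e (cpol c) he1 he.le (mor_of_isCurve hc)
      (hevv_mem_of_isCurve hc) ⟨s, t, by rw [hevv_cpol, hst]; exact hvL⟩).1
    omega

end Pool.Agent.Helper87.VM
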