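import Pool.Agent.Helper87.VM.Lib2
import Pool.Agent.Helper87.VM.Stmts

/-!
The group acts on the blow-up (module YACT of the existence theorem on isotrivial VMRT).
-/

set_option autoImplicit false

namespace Pool.Agent.Helper87.VM

open MvPolynomial Pool.Agent.Helper48.VMRT

theorem yact_matrix {ν : Type} [Fintype ν] [DecidableEq ν]
    (L : (ν → ℂ) →ₗ[ℂ] (ν → ℂ)) (v : ν → ℂ) (j : ν) :
    L v j = ∑ k, LinearMap.toMatrix' L j k * v k := by
  have h : L v = Matrix.mulVec (LinearMap.toMatrix' L) v := by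
    conv_lhs => rw [← Matrix.toLin'_toMatrix' L]
    rw [Matrix.toLin'_apply]
  rw [h]
  rfl

theorem st_YACT : ST_YACT := by
  intro G ν _ _ _ w Z ρ a F ρν hfd g y hy
  obtain ⟨x, η, rfl, h⟩ := hy
  rw [tens_seg]
  refine ⟨_, _, rfl, ?_⟩
  intro p hp
  have hq : ∑ k, (∑ j, C (LinearMap.toMatrix' (ρν g) j k) * pull (oext ρ g) (p j)) * F k = 0 := by
    apply MvPolynomial.funext
    intro x1
    have h1 := congrArg (eval (oext ρ g x1)) hp
    rw [map_sum, map_zero] at h1
    rw [map_sum, map_zero, ← h1]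
    have h2 : ∀ j, eval (oext ρ g x1) (F j) =
        ∑ k, LinearMap.toMatrix' (ρν g) j k * eval x1 (F k) := by
      intro j
      have h3 := congrFun (hfd.equi g x1) j
      rw [yact_matrix] at h3
      exact h3
    have h4 : ∀ j, eval (oext ρ g x1) (p j * F j) =
        ∑ k, eval (oext ρ g x1) (p j) * (LinearMap.toMatrix' (ρν g) j k * eval x1 (F k)) := by
      intro j
      rw [map_mul, h2, Finset.mul_sum]
    rw [Finset.sum_congr rfl fun j _ => h4 j, Finset.sum_comm]
    refine Finset.sum_congr rfl fun k _ => ?_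
    rw [map_mul, map_sum, Finset.sum_mul]
    refine Finset.sum_congr rfl fun j _ => ?_
    rw [map_mul, eval_C, eval_pull]
    ring
  have h5 := h _ hq
  rw [← h5]
  have h6 : ∀ j, eval (oext ρ g x) (p j) * ρν g η j =
      ∑ k, eval (oext ρ g x) (p j) * (LinearMap.toMatrix' (ρν g) j k * η k) := by
    intro j
    rw [yact_matrix, Finset.mul_sum]
  rw [Finset.sum_congr rfl fun j _ => h6 j, Finset.sum_comm]
  refine Finset.sum_congr rfl fun k _ => ?_
  rw [map_sum, Finset.sum_mul]
  refine Finset.sum_congr rfl fun j _ => ?_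
  rw [map_mul, eval_C, eval_pull]
  ring

end Pool.Agent.Helper87.VM
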